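import Pool.Agent.H55.Dense.HDim
import Pool.Agent.H9.KRN.Defs

/-!
# GEO2: from the density bound with the loss `δ ^ g` to the Hausdorff dimension
-/

set_option autoImplicit false

open MeasureTheory Set Metric

open scoped RealInnerProductSpace ENNReal NNReal

namespace Pool.KRN

open Pool.Agent.H53.Kak (E tube)
open Pool.Agent.H55.HDim

/-- **GEO2.** A density bound for tubes with the loss `δ ^ g` implies a lower bound for the
Hausdorff dimension of all sets which contain a unit segment in every direction. -/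
theorem t_geo2 : GeoTwoStmt := by
  intro d g hg0 hgd h K hK
  classical
  by_contra hcon
  push Not at hcon
  obtain ⟨s, hs1, hs2⟩ := ENNReal.lt_iff_exists_nnreal_btwn.mp hcon
  have hs0 : 0 < (s : ℝ) := by
    have : (0 : ℝ≥0∞) < s := lt_of_le_of_lt zero_le hs1
    exact_mod_cast this
  have hs3 : (s : ℝ) < (d : ℝ) + 1 - g := by
    have h1 : ENNReal.ofReal (s : ℝ) < ENNReal.ofReal ((d : ℝ) + 1 - g) := by
      rw [ENNReal.ofReal_coe_nnreal]; exact hs2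
    exact (ENNReal.ofReal_lt_ofReal_iff (by linarith)).mp h1
  have hzero : μH[(s : ℝ)] K = 0 := hausdorffMeasure_of_dimH_lt hs1
  obtain ⟨ε, hε⟩ : ∃ ε : ℝ, ε = ((d : ℝ) + 1 - g - s) / 2 := ⟨_, rfl⟩
  have hε0 : 0 < ε := by rw [hε]; linarith
  obtain ⟨c, P, hc0, hdens⟩ := h ε hε0
  obtain ⟨P', hP'⟩ : ∃ P' : ℝ, P' = max P 0 := ⟨_, rfl⟩
  have hP'0 : 0 ≤ P' := by rw [hP']; exact le_max_right _ _
  have hPP' : P ≤ P' := by rw [hP']; exact le_max_left _ _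
  have hom := om_pos d
  obtain ⟨κ, hκ⟩ : ∃ κ : ℝ, κ = min 1 (om d / 2 ^ (d + 2)) := ⟨_, rfl⟩
  have hκ0 : 0 < κ := by rw [hκ]; positivity
  have hκ1 : κ ≤ 1 := by rw [hκ]; exact min_le_left _ _
  have hκ2 : κ ≤ om d / 2 ^ (d + 2) := by rw [hκ]; exact min_le_right _ _
  obtain ⟨A, hA⟩ : ∃ A : ℝ, A = 2 * ((d : ℝ) + 1) ^ 2 := ⟨_, rfl⟩
  have hA0 : 0 < A := by rw [hA]; positivity
  obtain ⟨c1, hc1⟩ : ∃ c1 : ℝ, c1 = 2 / (2 ^ d * A ^ d) := ⟨_, rfl⟩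
  have hc1pos : 0 < c1 := by rw [hc1]; positivity
  obtain ⟨C2, hC2⟩ : ∃ C2 : ℝ, C2 = 2 ^ (d + 1) * om d / (c * κ ^ P' * c1) := ⟨_, rfl⟩
  have hC2pos : 0 < C2 := by rw [hC2]; positivity
  obtain ⟨k₁, hk₁⟩ := eventually_small (C := C2) (Q := P' + 1) hε0
  obtain ⟨k₀, hk₀⟩ : ∃ k₀ : ℕ, k₀ = max k₁ 1 := ⟨_, rfl⟩
  have hk₀1 : 1 ≤ k₀ := by rw [hk₀]; exact le_max_right _ _
  have hk₀k₁ : k₁ ≤ k₀ := by rw [hk₀]; exact le_max_left _ _
  have hhalf : (0 : ℝ) < 2⁻¹ := by norm_num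
  -- the cover
  obtain ⟨η, hη⟩ : ∃ η : ℝ, η = ((2 : ℝ)⁻¹ ^ k₀) ^ (s : ℝ) := ⟨_, rfl⟩
  have hη0 : 0 < η := by rw [hη]; positivity
  obtain ⟨x, ρ, hρ0, hcov, hsum⟩ := cover_of_zero K hs0 hzero hη0
  have hρη : ∀ n, ρ n ≤ (2 : ℝ)⁻¹ ^ k₀ := by
    intro n
    have h1 : ENNReal.ofReal (ρ n ^ (s : ℝ)) ≤ ENNReal.ofReal η :=
      (ENNReal.le_tsum n).trans hsum
    have h2 := (ENNReal.ofReal_le_ofReal_iff hη0.le).mp h1
    rw [hη] at h2
    exact (Real.rpow_le_rpow_iff (hρ0 n).le (by positivity) hs0).mp h2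
  have hρ1 : ∀ n, ρ n ≤ 1 := fun n =>
    (hρη n).trans (pow_le_one₀ (by norm_num) (by norm_num))
  have hk : ∀ n, ∃ k : ℕ, (2 : ℝ)⁻¹ ^ (k + 1) < ρ n ∧ ρ n ≤ (2 : ℝ)⁻¹ ^ k := fun n =>
    exists_nat_pow_near_of_lt_one (hρ0 n) (hρ1 n) (by norm_num) (by norm_num)
  choose kk hkk1 hkk2 using hk
  have hkk0 : ∀ n, k₀ ≤ kk n := by
    intro n
    by_contra hlt
    push Not at hlt
    have h1 : (2 : ℝ)⁻¹ ^ k₀ ≤ (2 : ℝ)⁻¹ ^ (kk n + 1) :=
      pow_le_pow_of_le_one (by norm_num) (by norm_num) hlt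
    linarith [hρη n, hkk1 n]
  -- segments
  choose! p hp using hK
  obtain ⟨Qs, hQs⟩ : ∃ Qs : (Fin d → ℝ) → ℕ → Set ℝ, Qs = fun w k =>
      {t | (1 / 4 ≤ t ∧ t ≤ 3 / 4) ∧ ∃ n, kk n = k ∧
        dist (p (edir w) + t • edir w) (x n) ≤ (2 : ℝ)⁻¹ ^ k} := ⟨_, rfl⟩
  have hQmem : ∀ w k t, t ∈ Qs w k ↔ ((1 / 4 ≤ t ∧ t ≤ 3 / 4) ∧ ∃ n, kk n = k ∧
        dist (p (edir w) + t • edir w) (x n) ≤ (2 : ℝ)⁻¹ ^ k) := fun w k t => by rw [hQs]; rfl
  have hscale1 : ∀ w : Fin d → ℝ, ∃ k, ENNReal.ofReal (1 * wt k) ≤ volume (Qs w k) := by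
    intro w
    refine exists_scale volume (Qs w) 1 zero_le_one (Set.Icc (1 / 4) (3 / 4)) ?_ ?_
    · intro t ht
      have h1 := hp (edir w) (norm_edir w) t (by linarith [ht.1]) (by linarith [ht.2])
      obtain ⟨n, hn⟩ := Set.mem_iUnion.mp (hcov h1)
      refine Set.mem_iUnion.mpr ⟨kk n, (hQmem _ _ _).mpr ⟨ht, n, rfl, ?_⟩⟩
      exact (mem_closedBall.mp hn).trans (hkk2 n)
    · rw [Real.volume_Icc]
      exact (ENNReal.ofReal_lt_ofReal_iff (by norm_num)).mpr (by norm_num)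
  obtain ⟨Om, hOm⟩ : ∃ Om : ℕ → Set (Fin d → ℝ), Om = fun k =>
      {w | (∀ i, 0 ≤ w i ∧ w i ≤ 1) ∧ ENNReal.ofReal (1 * wt k) ≤ volume (Qs w k)} := ⟨_, rfl⟩
  have hOmmem : ∀ k w, w ∈ Om k ↔ ((∀ i, 0 ≤ w i ∧ w i ≤ 1) ∧
      ENNReal.ofReal (1 * wt k) ≤ volume (Qs w k)) := fun k w => by rw [hOm]; rfl
  obtain ⟨k, hkΩ⟩ : ∃ k, ENNReal.ofReal (2 * wt k) ≤ volume (Om k) := by
    refine exists_scale volume Om 2 (by norm_num) (Set.pi univ fun _ => Set.Icc 0 1) ?_ ?_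
    · intro w hw
      obtain ⟨k, hk⟩ := hscale1 w
      exact Set.mem_iUnion.mpr ⟨k, (hOmmem _ _).mpr ⟨fun i => hw i (Set.mem_univ i), hk⟩⟩
    · rw [volume_pi_pi]
      simp only [Real.volume_Icc, Finset.prod_const]
      norm_num
  have hwtk := wt_pos k
  obtain ⟨δ, hδ⟩ : ∃ δ : ℝ, δ = (2 : ℝ)⁻¹ ^ k := ⟨_, rfl⟩
  have hδ0 : 0 < δ := by rw [hδ]; positivity
  -- the separated directions
  obtain ⟨Z, w, hw1, hw2, hw3⟩ := select (Om k) (fun w hw => ((hOmmem _ _).mp hw).1)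
    (r := A * δ) (by positivity) hkΩ
  have hZpos : 0 < Z.card := by
    by_contra hcon2
    have h1 : Z.card = 0 := by omega
    rw [h1, Nat.cast_zero, mul_zero] at hw3
    linarith
  obtain ⟨z₀, hz₀⟩ := Finset.card_pos.mp hZpos
  have hk0k : k₀ ≤ k := by
    have h1 := ((hOmmem _ _).mp (hw1 z₀ hz₀)).2
    have h2 : 0 < volume (Qs (w z₀) k) :=
      lt_of_lt_of_le (ENNReal.ofReal_pos.mpr (by positivity)) h1
    obtain ⟨t, ht⟩ := nonempty_of_measure_ne_zero h2.ne'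
    obtain ⟨-, n, hn, -⟩ := (hQmem _ _ _).mp ht
    rw [← hn]; exact hkk0 n
  have hδ2 : δ ≤ 1 / 2 := by
    rw [hδ]
    calc (2 : ℝ)⁻¹ ^ k ≤ (2 : ℝ)⁻¹ ^ 1 :=
          pow_le_pow_of_le_one (by norm_num) (by norm_num) (hk₀1.trans hk0k)
      _ = 1 / 2 := by norm_num
  -- the balls of this scale
  have hfin := ENNReal.finset_card_const_le_le_of_tsum_le (a := fun n =>
    ENNReal.ofReal (ρ n ^ (s : ℝ))) ENNReal.ofReal_ne_top hsum
    (ε := ENNReal.ofReal (((2 : ℝ)⁻¹ ^ (k + 1)) ^ (s : ℝ)))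
    (ENNReal.ofReal_pos.mpr (by positivity)).ne'
  obtain ⟨hfin1, hfin2⟩ := hfin
  obtain ⟨F, hF⟩ : ∃ F, F = hfin1.toFinset := ⟨_, rfl⟩
  rw [← hF] at hfin2
  have hFmem : ∀ n, kk n = k → n ∈ F := by
    intro n hn
    rw [hF, Set.Finite.mem_toFinset]
    refine ENNReal.ofReal_le_ofReal (Real.rpow_le_rpow (by positivity) ?_ hs0.le)
    rw [← hn]; exact (hkk1 n).le
  have hFcard : (F.card : ℝ) ≤ δ ^ (-(s : ℝ)) := by
    have h1 : (F.card : ℝ≥0∞) ≤ ENNReal.ofReal (η / ((2 : ℝ)⁻¹ ^ (k + 1)) ^ (s : ℝ)) := by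
      rw [ENNReal.ofReal_div_of_pos (by positivity)]; exact hfin2
    have h2 : (F.card : ℝ) ≤ η / ((2 : ℝ)⁻¹ ^ (k + 1)) ^ (s : ℝ) := by
      rw [← ENNReal.ofReal_natCast] at h1
      exact (ENNReal.ofReal_le_ofReal_iff (by positivity)).mp h1
    refine h2.trans ?_
    rw [hη, ← Real.div_rpow (by positivity) (by positivity), hδ, Real.rpow_neg (by positivity),
      ← Real.inv_rpow (by positivity)]
    refine Real.rpow_le_rpow (by positivity) ?_ hs0.le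
    rw [div_le_iff₀ (by positivity)]
    have e1 : ((2 : ℝ)⁻¹ ^ k)⁻¹ * (2 : ℝ)⁻¹ ^ (k + 1) = 2⁻¹ ^ 1 := by
      rw [pow_succ]; field_simp
    rw [e1]
    exact pow_le_pow_of_le_one (by norm_num) (by norm_num) hk₀1
  -- apply the density bound
  obtain ⟨X, hX⟩ : ∃ X : Set (E d), X = ⋃ n ∈ F, closedBall (x n) (2 * δ) := ⟨_, rfl⟩
  have hXm : MeasurableSet X := by
    rw [hX]; exact Finset.measurableSet_biUnion _ fun _ _ => isClosed_closedBall.measurableSet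
  have hfam : Pool.Agent.H53.Kak.Fam δ (fun z => edir (w z)) Z := by
    refine ⟨fun z _ => norm_edir _, fun z hz z' hz' hne => ?_⟩
    obtain ⟨i, hi⟩ := hw2 z hz z' hz' hne
    have h1 := edir_sep (w z) (w z') ((hOmmem _ _).mp (hw1 z hz)).1
      ((hOmmem _ _).mp (hw1 z' hz')).1 i
    rw [← hA] at h1
    exact le_of_mul_le_mul_left (hi.trans h1) hA0
  have hmass : ∀ z ∈ Z, ENNReal.ofReal (κ * wt k * δ ^ d) ≤
      volume (X ∩ tube δ (p (edir (w z)) + (1 / 2 : ℝ) • edir (w z)) (edir (w z))) := by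
    intro z hz
    have h1 := ((hOmmem _ _).mp (hw1 z hz)).2
    rw [one_mul] at h1
    have h2 := tube_mass (p := p (edir (w z))) (norm_edir (w z)) hδ0 hδ2 F x (Qs (w z) k)
      (by
        intro t ht
        obtain ⟨ht1, n, hn, ht2⟩ := (hQmem _ _ _).mp ht
        exact ⟨ht1, n, hFmem n hn, hδ ▸ ht2⟩) h1
    rw [← hX] at h2
    refine le_trans (ENNReal.ofReal_le_ofReal ?_) h2
    have : κ * wt k ≤ wt k * (om d / 2 ^ (d + 2)) := by
      rw [mul_comm]; exact mul_le_mul_of_nonneg_left hκ2 hwtk.le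
    exact mul_le_mul_of_nonneg_right this (by positivity)
  have hwt1 : wt k ≤ 1 := by
    unfold wt
    rw [div_le_one (by positivity)]
    nlinarith [Nat.cast_nonneg (α := ℝ) k]
  have hlam1 : κ * wt k ≤ 1 := mul_le_one₀ hκ1 hwtk.le hwt1
  have hmain := hdens δ hδ0 (by linarith) (Fin d → ℤ) Z
    (fun z => p (edir (w z)) + (1 / 2 : ℝ) • edir (w z)) (fun z => edir (w z)) hfam X hXm
    (κ * wt k) (by positivity) hlam1 hmass
  -- the upper bound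
  have hupper : volume X ≤ ENNReal.ofReal (δ ^ (-(s : ℝ)) * ((2 * δ) ^ (d + 1) * om d)) := by
    rw [hX]
    refine (measure_biUnion_finset_le _ _).trans ?_
    have h1 : ∀ n ∈ F, volume (closedBall (x n) (2 * δ)) =
        ENNReal.ofReal ((2 * δ) ^ (d + 1) * om d) := fun n _ =>
      volume_closedBall_eq _ (by positivity)
    rw [Finset.sum_congr rfl h1, Finset.sum_const, nsmul_eq_mul, ← ENNReal.ofReal_natCast,
      ← ENNReal.ofReal_mul (by positivity)]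
    exact ENNReal.ofReal_le_ofReal (mul_le_mul_of_nonneg_right hFcard (by positivity))
  have hfinal := (ENNReal.ofReal_le_ofReal_iff (by positivity)).mp (hmain.trans hupper)
  -- the contradiction
  have hZcard : c1 * wt k * δ ^ (-(d : ℝ)) ≤ Z.card := by
    rw [mul_pow] at hw3
    rw [Real.rpow_neg hδ0.le, Real.rpow_natCast, ← div_eq_mul_inv, div_le_iff₀ (by positivity),
      hc1, div_mul_eq_mul_div, div_le_iff₀ (by positivity)]
    linarith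
  have hlow : c * δ ^ (g + ε) * ((κ * wt k) ^ P' * δ ^ d * (c1 * wt k * δ ^ (-(d : ℝ)))) ≤
      c * δ ^ (g + ε) * ((κ * wt k) ^ P * δ ^ d * (Z.card : ℝ)) := by
    have h1 : (κ * wt k) ^ P' ≤ (κ * wt k) ^ P :=
      Real.rpow_le_rpow_of_exponent_ge (by positivity) hlam1 hPP'
    have h2 : (c1 * wt k * δ ^ (-(d : ℝ))) ≤ (Z.card : ℝ) := hZcard
    gcongr
  have hcomb := hlow.trans hfinal
  have hkey := hk₁ k (hk₀k₁.trans hk0k)
  rw [← hδ] at hkey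
  -- rewrite everything as powers
  have e1 : c * δ ^ (g + ε) * ((κ * wt k) ^ P' * δ ^ d * (c1 * wt k * δ ^ (-(d : ℝ)))) =
      (c * κ ^ P' * c1) * (wt k ^ (P' + 1)) * (δ ^ (g + ε) * (δ ^ (d : ℝ) * δ ^ (-(d : ℝ)))) := by
    rw [Real.mul_rpow hκ0.le hwtk.le, Real.rpow_add hwtk, Real.rpow_one, Real.rpow_natCast]
    ring
  have e2 : δ ^ (-(s : ℝ)) * ((2 * δ) ^ (d + 1) * om d) =
      (2 ^ (d + 1) * om d) * (δ ^ (-(s : ℝ)) * δ ^ ((d : ℝ) + 1)) := by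
    rw [mul_pow]
    have : δ ^ ((d : ℝ) + 1) = δ ^ (d + 1) := by
      rw [← Real.rpow_natCast δ (d + 1)]; push_cast; rfl
    rw [this]; ring
  have e3 : δ ^ (-(s : ℝ)) * δ ^ ((d : ℝ) + 1) =
      δ ^ (g + ε) * (δ ^ (d : ℝ) * δ ^ (-(d : ℝ))) * δ ^ ε := by
    rw [← Real.rpow_add hδ0, ← Real.rpow_add hδ0, ← Real.rpow_add hδ0, ← Real.rpow_add hδ0]
    congr 1
    rw [hε]; ring
  rw [e1, e2, e3] at hcomb
  have hpos : 0 < δ ^ (g + ε) * (δ ^ (d : ℝ) * δ ^ (-(d : ℝ))) := by positivity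
  have h5 : (c * κ ^ P' * c1) * (wt k ^ (P' + 1)) ≤ (2 ^ (d + 1) * om d) * δ ^ ε := by
    have h6 : (c * κ ^ P' * c1) * (wt k ^ (P' + 1)) *
        (δ ^ (g + ε) * (δ ^ (d : ℝ) * δ ^ (-(d : ℝ)))) ≤ (2 ^ (d + 1) * om d) * δ ^ ε *
        (δ ^ (g + ε) * (δ ^ (d : ℝ) * δ ^ (-(d : ℝ)))) := by
      refine hcomb.trans (le_of_eq ?_)
      ring
    exact le_of_mul_le_mul_right h6 hpos
  have h7 : wt k ^ (P' + 1) ≤ C2 * δ ^ ε := by
    rw [hC2, div_mul_eq_mul_div, le_div_iff₀ (by positivity)]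
    linarith
  exact absurd hkey (not_lt.mpr h7)

end Pool.KRN
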